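import Pool.Agent.Work.MP_058ed1_gt.G.Stmt

/-!
# Amenable groups of isometries, closed and coclosed forms on `X/C` with a non-zero pairing
-/

open scoped Manifold ContDiff Topology Bundle
open Set MeasureTheory Bundle

noncomputable section

namespace Pool.Agent.ZSp

/-- `C` acts on `X` by isometries, properly discontinuously. -/
structure DiscAction (E : Type*) [NormedAddCommGroup E] [InnerProductSpace ℝ E] (C X : Type*)
    [Group C] [EMetricSpace X] [ChartedSpace E X]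
    [RiemannianBundle (fun x : X => TangentSpace 𝓘(ℝ, E) x)] [MulAction C X] : Prop where
  /-- the action is smooth. -/
  smooth : ∀ g : C, ContMDiff 𝓘(ℝ, E) 𝓘(ℝ, E) ∞ (fun x : X => g • x)
  /-- the derivatives preserve the Riemannian norm. -/
  isom : ∀ (g : C) (x : X) (v : TangentSpace 𝓘(ℝ, E) x),
    ‖mfderiv 𝓘(ℝ, E) 𝓘(ℝ, E) (fun x : X => g • x) x v‖ = ‖v‖
  /-- properly discontinuous. -/
  proper : ∀ K : Set X, IsCompact K → {g : C | (((fun x => g • x) '' K) ∩ K).Nonempty}.Finite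

/-- Foelner's condition (for a discrete group: amenability). -/
def Amenable (C : Type*) [Group C] : Prop :=
  by
    classical
    exact ∀ (T : Finset C) (ε : ℝ), 0 < ε → ∃ F : Finset C, F.Nonempty ∧
      ∀ t ∈ T, (((F.image (fun c => t * c)) \ F).card : ℝ) ≤ ε * F.card

/-- `τ` and `ρ` are smooth `C`-invariant forms on `X`, `dτ = 0`, `δρ = 0`, the function `φ` is
smooth with compact support and `∑_{c ∈ C} φ (c x) = 1` at all points `x` with `τ x ≠ 0` or
`ρ x ≠ 0` (so `τ` and `ρ` are forms with compact support on `X/C`), and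
`∫_{X/C} ⟨τ, ρ⟩ = ∫_X φ ⟨τ, ρ⟩` is not zero. -/
structure Pairing (E : Type*) [NormedAddCommGroup E] [InnerProductSpace ℝ E]
    [FiniteDimensional ℝ E] (C : Type*) {X : Type*} [Group C] [EMetricSpace X] [ChartedSpace E X]
    [RiemannianBundle (fun x : X => TangentSpace 𝓘(ℝ, E) x)] [MeasurableSpace X] [BorelSpace X]
    [MulAction C X] {p : ℕ} (τ ρ : PForm E X (p + 1)) (φ : X → ℝ) : Prop where
  smooth₁ : SmoothForm τ
  smooth₂ : SmoothForm ρ
  inv₁ : ∀ c : C, pull (fun x : X => c • x) τ = τ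
  inv₂ : ∀ c : C, pull (fun x : X => c • x) ρ = ρ
  closed : ∀ x, extD τ x = 0
  coclosed : DeltaEq ρ 0
  smooth : ContMDiff 𝓘(ℝ, E) 𝓘(ℝ, ℝ) ∞ φ
  supp : HasCompactSupport φ
  part : ∀ x, τ x ≠ 0 ∨ ρ x ≠ 0 → ∑ᶠ c : C, φ (c • x) = 1
  ne : ∫ x, φ x * pin τ ρ x ∂(vol E X) ≠ 0

end Pool.Agent.ZSp
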