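import Pool.Agent.Work.MP_058ed1_gt.D.Zero
import Pool.Agent.Work.MP_058ed1_gt.I.PairDef

/-!
# The action on forms and functions (as in `G/Act`, without cocompactness)
-/

open scoped Manifold ContDiff Topology Bundle ENNReal NNReal
open Set MeasureTheory Bundle

set_option linter.unusedSectionVars false

noncomputable section

namespace Pool.Agent.ZSpI

open Pool.Agent.ZSp

variable {E : Type*} [NormedAddCommGroup E] [InnerProductSpace ℝ E] [FiniteDimensional ℝ E]
  {G X : Type*} [Group G] [EMetricSpace X] [ChartedSpace E X]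
  [IsManifold 𝓘(ℝ, E) ∞ X] [RiemannianBundle (fun x : X => TangentSpace 𝓘(ℝ, E) x)]
  [IsContMDiffRiemannianBundle 𝓘(ℝ, E) ∞ E (fun x : X => TangentSpace 𝓘(ℝ, E) x)]
  [IsRiemannianManifold 𝓘(ℝ, E) X] [MeasurableSpace X] [BorelSpace X]
  [MulAction G X] {p : ℕ}

/-- pull-back by a group element. -/
abbrev gpull {E : Type*} [NormedAddCommGroup E] [InnerProductSpace ℝ E] {G X : Type*} [Group G]
    [TopologicalSpace X] [ChartedSpace E X]
    [MulAction G X] {p : ℕ} (g : G) (w : PForm E X p) : PForm E X p := pull (fun x : X => g • x) w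

theorem continuous_act (hA : DiscAction E G X) (g : G) :
    Continuous (fun x : X => g • x) := (hA.smooth g).continuous

/-- the homeomorphism given by a group element. -/
def homeo (hA : DiscAction E G X) (g : G) : X ≃ₜ X where
  toEquiv := MulAction.toPerm g
  continuous_toFun := continuous_act hA g
  continuous_invFun := continuous_act hA g⁻¹

theorem gpull_mem (hA : DiscAction E G X) (g : G) {w : PForm E X p} (hw : w ∈ OmegaC E X p) :
    gpull g w ∈ OmegaC E X p := by
  refine ⟨hw.1.pull (hA.smooth g), ?_⟩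
  have h1 : IsCompact ((fun x : X => g⁻¹ • x) '' closure {x | w x ≠ 0}) :=
    hw.2.image (continuous_act hA g⁻¹)
  refine h1.of_isClosed_subset isClosed_closure (closure_minimal ?_ h1.isClosed)
  intro x hx
  refine ⟨g • x, subset_closure ?_, by simp⟩
  intro h0
  apply hx
  show (w (g • x)).compContinuousLinearMap _ = 0
  rw [h0]
  rfl

theorem pin_gpull (hA : DiscAction E G X) (g : G) (α β : PForm E X p) (x : X) :
    pin (gpull g α) (gpull g β) x = pin α β (g • x) :=
  ainner_comp (V := TangentSpace 𝓘(ℝ, E) x) (W := TangentSpace 𝓘(ℝ, E) (g • x))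
    (mfderiv 𝓘(ℝ, E) 𝓘(ℝ, E) (fun x : X => g • x) x) (hA.isom g x) rfl _ _

theorem measurePreserving_smul' (hA : DiscAction E G X) (g : G) :
    MeasurePreserving (fun x : X => g • x) (vol E X) (vol E X) :=
  measurePreserving_vol (MulAction.toPerm g) (hA.smooth g) (hA.smooth g⁻¹) (hA.isom g)

theorem integral_smul' (hA : DiscAction E G X) (g : G) (f : X → ℝ) :
    ∫ x, f (g • x) ∂(vol E X) = ∫ x, f x ∂(vol E X) :=
  (measurePreserving_smul' hA g).integral_comp (homeo hA g).measurableEmbedding f

theorem integrable_smul' (hA : DiscAction E G X) (g : G) {f : X → ℝ}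
    (hf : Integrable f (vol E X)) : Integrable (fun x => f (g • x)) (vol E X) :=
  (measurePreserving_smul' hA g).integrable_comp_of_integrable hf

theorem l2_gpull (hA : DiscAction E G X) (g : G) (α β : PForm E X p) :
    l2 (gpull g α) (gpull g β) = l2 α β := by
  unfold l2
  rw [← integral_smul' hA g (pin α β)]
  exact integral_congr_ae (Filter.Eventually.of_forall fun x => pin_gpull hA g α β x)

open Classical in
/-- the number of group elements which move a compact set so that it meets itself. -/
theorem card_le_of_mem (hA : DiscAction E G X) {K : Set X} (hK : IsCompact K) (F : Finset G)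
    (x : X) : ((F.filter (fun c => c • x ∈ K)).card : ℝ) ≤ (hA.proper K hK).toFinset.card := by
  classical
  rcases (F.filter (fun c => c • x ∈ K)).eq_empty_or_nonempty with h | ⟨c₀, hc₀⟩
  · rw [h]; simp
  · rw [Finset.mem_filter] at hc₀
    have : (F.filter (fun c => c • x ∈ K)).card ≤ (hA.proper K hK).toFinset.card := by
      apply Finset.card_le_card_of_injOn (fun c => c * c₀⁻¹)
      · intro c hc
        rw [Finset.mem_coe, Finset.mem_filter] at hc
        simp only [Finite.coe_toFinset, mem_ofPred_eq]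
        exact ⟨c • x, ⟨c₀ • x, hc₀.2, by simp [mul_smul]⟩, hc.2⟩
      · intro a _ b _ hab
        exact mul_right_cancel hab
    exact_mod_cast this

open Classical in
theorem card_le_of_inv_mem (hA : DiscAction E G X) {K : Set X} (hK : IsCompact K) (F : Finset G)
    (x : X) : ((F.filter (fun c => c⁻¹ • x ∈ K)).card : ℝ) ≤ (hA.proper K hK).toFinset.card := by
  classical
  rcases (F.filter (fun c => c⁻¹ • x ∈ K)).eq_empty_or_nonempty with h | ⟨c₀, hc₀⟩
  · rw [h]; simp
  · rw [Finset.mem_filter] at hc₀
    have : (F.filter (fun c => c⁻¹ • x ∈ K)).card ≤ (hA.proper K hK).toFinset.card := by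
      apply Finset.card_le_card_of_injOn (fun c => c⁻¹ * c₀)
      · intro c hc
        rw [Finset.mem_coe, Finset.mem_filter] at hc
        simp only [Finite.coe_toFinset, mem_ofPred_eq]
        exact ⟨c⁻¹ • x, ⟨c₀⁻¹ • x, hc₀.2, by simp [mul_smul]⟩, hc.2⟩
      · intro a _ b _ hab
        exact inv_injective (mul_right_cancel hab)
    exact_mod_cast this

theorem ainner_sum_self_le {V : Type*} [NormedAddCommGroup V] [InnerProductSpace ℝ V]
    [FiniteDimensional ℝ V] {ι : Type*} (s : Finset ι) (a : ι → V [⋀^Fin p]→L[ℝ] ℝ) :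
    ainner (∑ i ∈ s, a i) (∑ i ∈ s, a i) ≤ s.card * ∑ i ∈ s, ainner (a i) (a i) := by
  unfold ainner
  have h0 : (0 : ℝ) ≤ ((p.factorial : ℝ))⁻¹ := by positivity
  calc _ ≤ ((p.factorial : ℝ))⁻¹ * ∑ i : Fin p → Fin (Module.finrank ℝ V), (s.card : ℝ) *
        ∑ j ∈ s, (a j (fun k => stdOrthonormalBasis ℝ V (i k)) *
          a j (fun k => stdOrthonormalBasis ℝ V (i k))) := by
        apply mul_le_mul_of_nonneg_left _ h0
        apply Finset.sum_le_sum
        intro i _
        have h1 : (∑ j ∈ s, a j) (fun k => stdOrthonormalBasis ℝ V (i k)) =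
            ∑ j ∈ s, a j (fun k => stdOrthonormalBasis ℝ V (i k)) := by
          rw [ContinuousAlternatingMap.sum_apply]
        rw [h1]
        have := sq_sum_le_card_mul_sum_sq (s := s)
          (f := fun j => a j (fun k => stdOrthonormalBasis ℝ V (i k)))
        simpa [sq] using this
    _ = _ := by
        rw [← Finset.mul_sum, Finset.sum_comm, ← Finset.mul_sum]
        ring

theorem sum_apply_pform {ι : Type*} (s : Finset ι) (a : ι → PForm E X p) (x : X) :
    (∑ i ∈ s, a i) x = ∑ i ∈ s, a i x := Finset.sum_apply _ _ _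

/-- overlap: if at most `N` group elements move the support of `κ` so that it meets itself, then
`‖∑_{c ∈ F} c^* κ‖² ≤ N #F ‖κ‖²`. -/
theorem l2_sum_gpull_le (hA : DiscAction E G X) {κ : PForm E X p} (hκ : κ ∈ OmegaC E X p)
    (K : Set X) (hK : IsCompact K) (hsupp : ∀ x, κ x ≠ 0 → x ∈ K) :
    ∃ N : ℝ, 0 ≤ N ∧ ∀ F : Finset G,
      l2 (∑ c ∈ F, gpull c κ) (∑ c ∈ F, gpull c κ) ≤ N * F.card := by
  classical
  set M : ℝ := ((hA.proper K hK).toFinset.card : ℝ) with hM
  refine ⟨M * l2 κ κ, mul_nonneg (by positivity) (l2_self_nonneg _), ?_⟩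
  intro F
  have hz : ∀ (c : G) (x : X), c • x ∉ K → gpull c κ x = 0 := by
    intro c x hx
    have h0 : κ (c • x) = 0 := by
      by_contra h; exact hx (hsupp _ h)
    show (κ (c • x)).compContinuousLinearMap _ = 0
    rw [h0]; rfl
  have hpt : ∀ x, pin (∑ c ∈ F, gpull c κ) (∑ c ∈ F, gpull c κ) x ≤
      M * ∑ c ∈ F, pin (gpull c κ) (gpull c κ) x := by
    intro x
    have h1 : (∑ c ∈ F, gpull c κ) x = ∑ c ∈ F.filter (fun c => c • x ∈ K), gpull c κ x := by
      rw [sum_apply_pform, Finset.sum_filter_of_ne]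
      intro c _ hne
      by_contra hx
      exact hne (hz c x hx)
    show ainner _ _ ≤ _
    rw [h1]
    refine (ainner_sum_self_le _ _).trans ?_
    have h2 : ∑ c ∈ F.filter (fun c => c • x ∈ K), ainner (gpull c κ x) (gpull c κ x) ≤
        ∑ c ∈ F, pin (gpull c κ) (gpull c κ) x :=
      Finset.sum_le_sum_of_subset_of_nonneg (Finset.filter_subset _ _)
        (fun c _ _ => pin_self_nonneg _ _)
    have h3 := card_le_of_mem hA hK F x
    have h4 : 0 ≤ ∑ c ∈ F.filter (fun c => c • x ∈ K), ainner (gpull c κ x) (gpull c κ x) :=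
      Finset.sum_nonneg (fun c _ => ainner_self_nonneg _)
    exact mul_le_mul h3 h2 h4 (by positivity)
  have hmem : (∑ c ∈ F, gpull c κ) ∈ OmegaC E X p :=
    Submodule.sum_mem _ (fun c _ => gpull_mem hA c hκ)
  calc l2 (∑ c ∈ F, gpull c κ) (∑ c ∈ F, gpull c κ)
      ≤ ∫ x, M * ∑ c ∈ F, pin (gpull c κ) (gpull c κ) x ∂(vol E X) := by
        apply integral_mono (integrable_pin hmem hmem)
        · exact (integrable_finsetSum _ (fun c _ =>
            integrable_pin (gpull_mem hA c hκ) (gpull_mem hA c hκ))).const_mul _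
        · exact hpt
    _ = M * l2 κ κ * F.card := by
        rw [integral_const_mul, integral_finsetSum _ (fun c _ =>
            integrable_pin (gpull_mem hA c hκ) (gpull_mem hA c hκ))]
        have : ∀ c ∈ F, ∫ x, pin (gpull c κ) (gpull c κ) x ∂(vol E X) = l2 κ κ :=
          fun c _ => l2_gpull hA c κ κ
        rw [Finset.sum_congr rfl this, Finset.sum_const, nsmul_eq_mul]
        ring

/-- overlap for integrals of a nonnegative function over the translates of a compact set. -/
theorem sum_setIntegral_smul_le (hA : DiscAction E G X) (K : Set X) (hK : IsCompact K) :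
    ∃ N : ℝ, 0 ≤ N ∧ ∀ (F : Finset G) (f : X → ℝ), (∀ x, 0 ≤ f x) → Integrable f (vol E X) →
      ∑ c ∈ F, ∫ x in K, f (c • x) ∂(vol E X) ≤ N * ∫ x, f x ∂(vol E X) := by
  classical
  set M : ℝ := ((hA.proper K hK).toFinset.card : ℝ) with hM
  refine ⟨M, by positivity, ?_⟩
  intro F f hf hfi
  have hKm : MeasurableSet K := hK.isClosed.measurableSet
  have h1 : ∀ c ∈ F, ∫ x in K, f (c • x) ∂(vol E X) =
      ∫ x, (K.indicator (fun _ => (1 : ℝ)) (c⁻¹ • x)) * f x ∂(vol E X) := by
    intro c _
    rw [← integral_indicator hKm,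
      ← integral_smul' hA c (fun x => (K.indicator (fun _ => (1 : ℝ)) (c⁻¹ • x)) * f x)]
    apply integral_congr_ae (Filter.Eventually.of_forall fun x => ?_)
    show K.indicator (fun x => f (c • x)) x =
      (K.indicator (fun _ => (1 : ℝ)) (c⁻¹ • c • x)) * f (c • x)
    rw [inv_smul_smul]
    by_cases hx : x ∈ K <;> simp [hx]
  rw [Finset.sum_congr rfl h1, ← integral_finsetSum, ← integral_const_mul]
  · apply integral_mono
    · apply integrable_finsetSum
      intro c _
      refine hfi.bdd_mul (c := 1) ?_ ?_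
      · exact ((measurable_const.indicator hKm).comp (continuous_act hA c⁻¹).measurable).aestronglyMeasurable
      · exact Filter.Eventually.of_forall fun x => by
          by_cases hx : c⁻¹ • x ∈ K <;> simp [hx]
    · exact hfi.const_mul _
    · intro x
      show ∑ c ∈ F, (K.indicator (fun _ => (1 : ℝ)) (c⁻¹ • x)) * f x ≤ M * f x
      rw [← Finset.sum_mul]
      apply mul_le_mul_of_nonneg_right _ (hf x)
      refine le_trans (le_of_eq ?_) (card_le_of_inv_mem hA hK F x)
      rw [Finset.card_filter]
      push_cast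
      apply Finset.sum_congr rfl
      intro c _
      by_cases hx : c⁻¹ • x ∈ K <;> simp [hx]
  · intro c _
    refine hfi.bdd_mul (c := 1) ?_ ?_
    · exact ((measurable_const.indicator hKm).comp (continuous_act hA c⁻¹).measurable).aestronglyMeasurable
    · exact Filter.Eventually.of_forall fun x => by
        by_cases hx : c⁻¹ • x ∈ K <;> simp [hx]

end Pool.Agent.ZSpI
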