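import Pool.Agent.Work.MP_058ed1_gt.I.Cut

/-!
# The codifferential of the cut-offs of a coclosed form
-/

open scoped Manifold ContDiff Topology Bundle ENNReal NNReal
open Set MeasureTheory Bundle

set_option linter.unusedSectionVars false

noncomputable section

namespace Pool.Agent.ZSpI

open Pool.Agent.ZSp

variable {E : Type*} [NormedAddCommGroup E] [InnerProductSpace ℝ E] [FiniteDimensional ℝ E]
  {C X : Type*} [Group C] [EMetricSpace X] [ChartedSpace E X]
  [IsManifold 𝓘(ℝ, E) ∞ X] [RiemannianBundle (fun x : X => TangentSpace 𝓘(ℝ, E) x)]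
  [IsContMDiffRiemannianBundle 𝓘(ℝ, E) ∞ E (fun x : X => TangentSpace 𝓘(ℝ, E) x)]
  [IsRiemannianManifold 𝓘(ℝ, E) X] [MeasurableSpace X] [BorelSpace X]
  [MulAction C X] {p : ℕ}

theorem l2_zero_right (a : PForm E X p) : l2 a 0 = 0 := by
  rw [l2_comm, l2_zero_left]

/-- a smooth form which is orthogonal to all test forms with support near `x` vanishes at `x`. -/
theorem eq_zero_of_local {κ : PForm E X p} (hκ : SmoothForm κ) {x : X} {U : Set X}
    (hU : U ∈ 𝓝 x) (h : ∀ a ∈ OmegaC E X p, (∀ y, y ∉ U → ∀ᶠ z in 𝓝 y, a z = 0) → l2 a κ = 0) :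
    κ x = 0 := by
  by_contra hne
  have hpos : (vol E X).IsOpenPosMeasure := isOpenPosMeasure_vol
  obtain ⟨f, -, hf⟩ := (SmoothBumpFunction.nhds_basis_tsupport (I := 𝓘(ℝ, E)) x).mem_iff.1 hU
  have hfs : ContMDiff 𝓘(ℝ, E) 𝓘(ℝ, ℝ) ∞ f := f.contMDiff
  have hmem : (fun y => f y • κ y : PForm E X p) ∈ OmegaC E X p := by
    refine ⟨hκ.fmul hfs, ?_⟩
    refine f.hasCompactSupport.of_isClosed_subset isClosed_closure (closure_mono ?_)
    intro y hy h0
    apply hy
    show f y • _ = _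
    rw [h0, zero_smul]
  have h1 := h _ hmem (fun y hy => by
    have : y ∉ tsupport f := fun hc => hy (hf hc)
    filter_upwards [(isClosed_tsupport f).isOpen_compl.mem_nhds this] with z hz
    show f z • _ = _
    rw [image_eq_zero_of_notMem_tsupport hz, zero_smul])
  have hpin : ∀ y, pin (fun y => f y • κ y : PForm E X p) κ y = f y * pin κ κ y := by
    intro y
    exact ainner_smul_left _ _ _
  have hc : Continuous (pin (fun y => f y • κ y : PForm E X p) κ) := continuous_pin hmem.1 hκ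
  have h2 : 0 < l2 (fun y => f y • κ y : PForm E X p) κ := by
    unfold l2
    apply hc.integral_pos_of_hasCompactSupport_nonneg_nonzero (hasCompactSupport_pin hmem κ)
      (x := x)
    · intro y
      show 0 ≤ pin _ _ y
      rw [hpin]
      exact mul_nonneg f.nonneg (pin_self_nonneg _ _)
    · rw [hpin, f.eq_one, one_mul]
      exact (ainner_self_pos hne).ne'
  linarith

theorem gpull_gpull_inv (hA : DiscAction E C X) (g : C) (w : PForm E X p) :
    gpull g (gpull g⁻¹ w) = w := by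
  rw [gpull, gpull, pull_pull (hA.smooth g) (hA.smooth g⁻¹)]
  have : ((fun x : X => g⁻¹ • x) ∘ fun x : X => g • x) = id := by
    funext x; simp
  rw [this, pull_id]

theorem isCodiff_gpull (hA : DiscAction E C X) (g : C) {b : PForm E X (p + 1)}
    {κ : PForm E X p} (h : IsCodiff b κ) : IsCodiff (gpull g b) (gpull g κ) := by
  intro a ha
  have h1 := h (gpull g⁻¹ a) (gpull_mem hA g⁻¹ ha)
  have e1 : extD (gpull g⁻¹ a) = gpull g⁻¹ (extD a) := extD_pull ha.1 (hA.smooth g⁻¹)
  rw [e1] at h1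
  rw [← l2_gpull hA g (gpull g⁻¹ (extD a)) b, ← l2_gpull hA g (gpull g⁻¹ a) κ,
    gpull_gpull_inv hA, gpull_gpull_inv hA] at h1
  exact h1

theorem isCodiff_sum {ι : Type*} (s : Finset ι) {b : ι → PForm E X (p + 1)}
    {κ : ι → PForm E X p} (hb : ∀ i ∈ s, b i ∈ OmegaC E X (p + 1))
    (hκ : ∀ i ∈ s, κ i ∈ OmegaC E X p) (h : ∀ i ∈ s, IsCodiff (b i) (κ i)) :
    IsCodiff (∑ i ∈ s, b i) (∑ i ∈ s, κ i) := by
  classical
  induction s using Finset.induction_on with
  | empty =>
    intro a ha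
    rw [Finset.sum_empty, Finset.sum_empty, l2_zero_right, l2_zero_right]
  | insert i s hi ih =>
    intro a ha
    rw [Finset.sum_insert hi, Finset.sum_insert hi]
    have hb' : ∀ j ∈ s, b j ∈ OmegaC E X (p + 1) := fun j hj => hb j (Finset.mem_insert_of_mem hj)
    have hκ' : ∀ j ∈ s, κ j ∈ OmegaC E X p := fun j hj => hκ j (Finset.mem_insert_of_mem hj)
    have e1 := ih hb' hκ' (fun j hj => h j (Finset.mem_insert_of_mem hj)) a ha
    have e2 := h i (Finset.mem_insert_self _ _) a ha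
    have f1 : l2 (extD a) (b i + ∑ j ∈ s, b j) = l2 (extD a) (b i) + l2 (extD a) (∑ j ∈ s, b j) := by
      rw [l2_comm, l2_add_left (hb i (Finset.mem_insert_self _ _)) (Submodule.sum_mem _ hb')
        (extD_mem ha), l2_comm (b i), l2_comm (∑ j ∈ s, b j)]
    have f2 : l2 a (κ i + ∑ j ∈ s, κ j) = l2 a (κ i) + l2 a (∑ j ∈ s, κ j) := by
      rw [l2_comm, l2_add_left (hκ i (Finset.mem_insert_self _ _)) (Submodule.sum_mem _ hκ') ha,
        l2_comm (κ i), l2_comm (∑ j ∈ s, κ j)]
    rw [f1, f2, e1, e2]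

/-- `δ b` vanishes at `x` if `b` agrees near `x` with a coclosed form. -/
theorem codiff_local {b b' : PForm E X (p + 1)} {κ : PForm E X p} (hκ : SmoothForm κ)
    (h : IsCodiff b κ) (h' : ∀ a ∈ OmegaC E X p, l2 (extD a) b' = 0) {x : X}
    (he : ∀ᶠ y in 𝓝 x, b y = b' y) : κ x = 0 := by
  apply eq_zero_of_local hκ he
  intro a ha hsupp
  rw [← h a ha, ← h' a ha]
  unfold l2
  congr 1
  funext y
  by_cases hy : b y = b' y
  · show ainner _ _ = ainner _ _
    rw [hy]
  · have h0 : extD a y = 0 := by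
      have := hsupp y hy
      rw [extD_congr (w' := (0 : PForm E X p)) this, extD_zero]
      rfl
    rw [pin_eq_zero _ h0, pin_eq_zero _ h0]

variable {w : PForm E X (p + 1)} {φ : X → ℝ}

/-- bounds for a coclosed form. -/
theorem coclosed_bounds (hA : DiscAction E C X) (h : CutData C w φ)
    (hd : ∀ a ∈ OmegaC E X p, l2 (extD a) w = 0) :
    ∃ N : ℝ, 0 ≤ N ∧ ∀ F : Finset C,
      l2 (csum φ w F) (csum φ w F) ≤ N * F.card ∧
      ∃ κ ∈ OmegaC E X p, IsCodiff (csum φ w F) κ ∧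
        l2 κ κ ≤ N * (bdry (hA.proper _ h.φ_supp).toFinset F).card := by
  classical
  obtain ⟨κ, hκ, hκc⟩ := exists_codiff (fm_mem h)
  have hκK : ∀ x, x ∉ tsupport φ → κ x = 0 := by
    intro x hx
    refine codiff_local hκ.1 hκc (b' := 0) (fun a _ => l2_zero_right _) ?_
    filter_upwards [(isClosed_tsupport φ).isOpen_compl.mem_nhds hx] with y hy
    exact fm_eq_zero hy
  obtain ⟨N₁, hN₁, H₁⟩ := l2_sum_gpull_le hA (fm_mem h) _ h.φ_supp (fun x hx => by
    by_contra hcon; exact hx (fm_eq_zero hcon))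
  obtain ⟨N₂, hN₂, H₂⟩ := l2_le_bdry hA hκ h.φ_supp hκK
  refine ⟨max N₁ N₂, le_max_of_le_left hN₁, fun F => ⟨?_, ?_⟩⟩
  · refine (H₁ F).trans ?_
    gcongr
    exact le_max_left _ _
  · have hmem : (∑ c ∈ F, gpull c κ) ∈ OmegaC E X p :=
      Submodule.sum_mem _ fun c _ => gpull_mem hA c hκ
    have hco : IsCodiff (csum φ w F) (∑ c ∈ F, gpull c κ) :=
      isCodiff_sum F (fun c _ => gpull_mem hA c (fm_mem h)) (fun c _ => gpull_mem hA c hκ)
        (fun c _ => isCodiff_gpull hA c hκc)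
    refine ⟨_, hmem, hco, (H₂ F ?_).trans ?_⟩
    · intro x hx
      refine codiff_local hmem.1 hco (b' := w) hd ?_
      filter_upwards [eventually_mem_of_smul_mem hA h.φ_supp x] with y hy
      exact csum_eq h F y fun c hcy => hx c (hy c hcy)
    · gcongr
      exact le_max_right _ _

end Pool.Agent.ZSpI
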