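import Pool.Agent.Work.MP_058ed1_gt.I.Act

/-!
# Cut-offs `∑_{c ∈ F} c^*(φ w)` of a `C`-invariant form `w`
-/

open scoped Manifold ContDiff Topology Bundle ENNReal NNReal
open Set MeasureTheory Bundle

set_option linter.unusedSectionVars false

noncomputable section

namespace Pool.Agent.ZSpI

open Pool.Agent.ZSp

variable {E : Type*} [NormedAddCommGroup E] [InnerProductSpace ℝ E] [FiniteDimensional ℝ E]
  {C X : Type*} [Group C] [EMetricSpace X] [ChartedSpace E X]
  [IsManifold 𝓘(ℝ, E) ∞ X] [RiemannianBundle (fun x : X => TangentSpace 𝓘(ℝ, E) x)]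
  [IsContMDiffRiemannianBundle 𝓘(ℝ, E) ∞ E (fun x : X => TangentSpace 𝓘(ℝ, E) x)]
  [IsRiemannianManifold 𝓘(ℝ, E) X] [MeasurableSpace X] [BorelSpace X]
  [MulAction C X] {p : ℕ}

/-- the elements of `F` which are not interior with respect to `T`. -/
def bdry {C : Type*} [Group C] (T F : Finset C) : Finset C := by
  classical exact F.filter (fun c => ∃ t ∈ T, t * c ∉ F)

theorem bdry_subset (T F : Finset C) : bdry T F ⊆ F := by
  classical
  unfold bdry; exact Finset.filter_subset _ _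

theorem exists_bdry_le (hC : Amenable C) (T : Finset C) (ε : ℝ) (hε : 0 < ε) :
    ∃ F : Finset C, F.Nonempty ∧ ((bdry T F).card : ℝ) ≤ ε * F.card := by
  classical
  have hpos : (0 : ℝ) < T.card + 1 := by positivity
  obtain ⟨F, hF, hF'⟩ := hC T (ε / (T.card + 1)) (div_pos hε hpos)
  refine ⟨F, hF, ?_⟩
  have h1 : bdry T F ⊆ T.biUnion fun t => (((F.image (fun c => t * c)) \ F).image
      (fun c => t⁻¹ * c)) := by
    intro c hc
    simp only [bdry, Finset.mem_filter] at hc
    obtain ⟨hcF, t, ht, htc⟩ := hc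
    simp only [Finset.mem_biUnion, Finset.mem_image, Finset.mem_sdiff]
    exact ⟨t, ht, t * c, ⟨⟨c, hcF, rfl⟩, htc⟩, by group⟩
  have h3 : ((T.biUnion fun t => (((F.image (fun c => t * c)) \ F).image
      (fun c => t⁻¹ * c))).card : ℝ) ≤ ∑ t ∈ T, ε / (T.card + 1) * F.card := by
    refine le_trans (Nat.cast_le.2 Finset.card_biUnion_le) ?_
    push_cast
    apply Finset.sum_le_sum
    intro t ht
    refine le_trans ?_ (hF' t ht)
    exact_mod_cast Finset.card_image_le
  rw [Finset.sum_const, nsmul_eq_mul] at h3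
  have h4 : (T.card : ℝ) * (ε / (T.card + 1) * F.card) ≤ ε * F.card := by
    have h5 : (T.card : ℝ) * (ε / (T.card + 1)) ≤ ε := by
      rw [mul_div_assoc', div_le_iff₀ hpos]
      nlinarith
    calc (T.card : ℝ) * (ε / (T.card + 1) * F.card)
        = ((T.card : ℝ) * (ε / (T.card + 1))) * F.card := by ring
      _ ≤ ε * F.card := by gcongr
  have h6 : ((bdry T F).card : ℝ) ≤
      ((T.biUnion fun t => (((F.image (fun c => t * c)) \ F).image
        (fun c => t⁻¹ * c))).card : ℝ) := by exact_mod_cast Finset.card_le_card h1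
  exact h6.trans (h3.trans h4)

/-- `φ w`. -/
def fm (φ : X → ℝ) (w : PForm E X p) : PForm E X p := fun x => φ x • w x

/-- `∑_{c ∈ F} c^*(φ w)`. -/
def csum (φ : X → ℝ) (w : PForm E X p) (F : Finset C) : PForm E X p :=
  ∑ c ∈ F, gpull c (fm φ w)

/-- hypotheses on the form `w` and on the cut-off function `φ`. -/
structure CutData (C : Type*) [Group C] [MulAction C X] (w : PForm E X p) (φ : X → ℝ) :
    Prop where
  smooth : SmoothForm w
  inv : ∀ c : C, gpull c w = w
  φ_smooth : ContMDiff 𝓘(ℝ, E) 𝓘(ℝ, ℝ) ∞ φ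
  φ_supp : HasCompactSupport φ
  part : ∀ x, w x ≠ 0 → ∑ᶠ c : C, φ (c • x) = 1

variable {w : PForm E X p} {φ : X → ℝ}

theorem eventually_mem_of_smul_mem (hA : DiscAction E C X) {K : Set X} (hK : IsCompact K)
    (x : X) : ∀ᶠ y in 𝓝 x, ∀ c : C, c • y ∈ K → c • x ∈ K := by
  have : LocallyCompactSpace X := Manifold.locallyCompact_of_finiteDimensional 𝓘(ℝ, E)
  obtain ⟨L, hL, hLx⟩ := exists_compact_mem_nhds x
  have hfin : {g : C | ∃ x ∈ L, g • x ∈ K}.Finite := by
    refine (hA.proper (L ∪ K) (hL.union hK)).subset ?_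
    rintro g ⟨x, hx, hgx⟩
    exact ⟨g • x, ⟨x, Or.inl hx, rfl⟩, Or.inr hgx⟩
  have h1 : ∀ᶠ y in 𝓝 x, ∀ c ∈ {g : C | ∃ x ∈ L, g • x ∈ K} ∩ {c | c • x ∉ K}, c • y ∉ K := by
    rw [Filter.eventually_all_finite (hfin.subset inter_subset_left)]
    rintro c ⟨_, hc⟩
    exact (continuous_act hA c).continuousAt.eventually (hK.isClosed.isOpen_compl.mem_nhds hc)
  filter_upwards [h1, hLx] with y hy hyL c hc
  by_contra hcon
  exact hy c ⟨⟨y, hyL, hc⟩, hcon⟩ hc

theorem fm_mem (h : CutData C w φ) : fm φ w ∈ OmegaC E X p := by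
  refine ⟨h.smooth.fmul h.φ_smooth, ?_⟩
  refine h.φ_supp.of_isClosed_subset isClosed_closure (closure_mono ?_)
  intro x hx h0
  apply hx
  show φ x • _ = _
  rw [h0, zero_smul]

theorem gpull_fm (h : CutData C w φ) (c : C) (x : X) :
    gpull c (fm φ w) x = φ (c • x) • w x := by
  conv_rhs => rw [← h.inv c]
  rfl

theorem csum_apply (h : CutData C w φ) (F : Finset C) (x : X) :
    csum φ w F x = (∑ c ∈ F, φ (c • x)) • w x := by
  unfold csum
  rw [sum_apply_pform, Finset.sum_smul]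
  exact Finset.sum_congr rfl fun c _ => gpull_fm h c x

theorem csum_eq (h : CutData C w φ) (F : Finset C) (x : X)
    (hx : ∀ c : C, c • x ∈ tsupport φ → c ∈ F) : csum φ w F x = w x := by
  classical
  rw [csum_apply h]
  by_cases h0 : w x = 0
  · rw [h0, smul_zero]
  · have h1 := h.part x h0
    have h2 : ∑ᶠ c : C, φ (c • x) = ∑ c ∈ F, φ (c • x) := by
      apply finsum_eq_sum_of_support_subset
      intro c hc
      exact hx c (subset_tsupport _ hc)
    rw [← h2, h1, one_smul]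

theorem csum_mem (hA : DiscAction E C X) (h : CutData C w φ) (F : Finset C) :
    csum φ w F ∈ OmegaC E X p :=
  Submodule.sum_mem _ fun c _ => gpull_mem hA c (fm_mem h)

theorem fm_eq_zero {x : X} (hx : x ∉ tsupport φ) : fm φ w x = 0 := by
  show φ x • _ = _
  rw [image_eq_zero_of_notMem_tsupport hx, zero_smul]

theorem gpull_zero_of {κ : PForm E X p} {c : C} {x : X} (h : κ (c • x) = 0) :
    gpull c κ x = 0 := by
  show (κ (c • x)).compContinuousLinearMap _ = 0
  rw [h]; rfl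

/-- at a point that is not interior only the boundary elements count. -/
theorem sum_bdry (hA : DiscAction E C X) {q : ℕ} {κ : PForm E X q} {K : Set X}
    (hK : IsCompact K) (hκ : ∀ x, x ∉ K → κ x = 0) {F : Finset C} {x : X}
    (hx : ¬ ∀ c : C, c • x ∈ K → c ∈ F) :
    (∑ c ∈ F, gpull c κ) x = (∑ c ∈ bdry (hA.proper K hK).toFinset F, gpull c κ) x := by
  classical
  push Not at hx
  obtain ⟨c', hc'x, hc'F⟩ := hx
  rw [sum_apply_pform, sum_apply_pform]
  symm
  apply Finset.sum_subset (bdry_subset _ _)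
  intro c hcF hcb
  apply gpull_zero_of
  apply hκ
  intro hcx
  apply hcb
  unfold bdry
  rw [Finset.mem_filter]
  refine ⟨hcF, c' * c⁻¹, ?_, by simpa using hc'F⟩
  simp only [Finite.mem_toFinset, mem_ofPred_eq]
  exact ⟨c' • x, ⟨c • x, hcx, by simp [mul_smul]⟩, hc'x⟩

/-- a form in `Ω_c` which is zero at the interior points and `∑_{c ∈ F} c^* κ` elsewhere. -/
theorem l2_le_bdry (hA : DiscAction E C X) {q : ℕ} {κ : PForm E X q} (hκ : κ ∈ OmegaC E X q)
    {K : Set X} (hK : IsCompact K) (hκK : ∀ x, x ∉ K → κ x = 0) :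
    ∃ N : ℝ, 0 ≤ N ∧ ∀ F : Finset C,
      (∀ x, (∀ c : C, c • x ∈ K → c ∈ F) → (∑ c ∈ F, gpull c κ) x = 0) →
      l2 (∑ c ∈ F, gpull c κ) (∑ c ∈ F, gpull c κ) ≤
        N * (bdry (hA.proper K hK).toFinset F).card := by
  classical
  obtain ⟨N, hN, H⟩ := l2_sum_gpull_le hA hκ K hK (fun x hx => by
    by_contra hcon; exact hx (hκK x hcon))
  refine ⟨N, hN, fun F h0 => ?_⟩
  have m1 : (∑ c ∈ F, gpull c κ) ∈ OmegaC E X q :=
    Submodule.sum_mem _ fun c _ => gpull_mem hA c hκ
  have m2 : (∑ c ∈ bdry (hA.proper K hK).toFinset F, gpull c κ) ∈ OmegaC E X q :=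
    Submodule.sum_mem _ fun c _ => gpull_mem hA c hκ
  refine le_trans ?_ (H _)
  apply integral_mono (integrable_pin m1 m1) (integrable_pin m2 m2)
  intro x
  by_cases hx : ∀ c : C, c • x ∈ K → c ∈ F
  · show pin _ _ x ≤ _
    rw [pin_eq_zero _ (h0 x hx)]
    exact pin_self_nonneg _ _
  · show ainner _ _ ≤ ainner _ _
    rw [sum_bdry hA hK hκK hx]

theorem extD_csum (hA : DiscAction E C X) (h : CutData C w φ) (F : Finset C) :
    extD (csum φ w F) = ∑ c ∈ F, gpull c (extD (fm φ w)) := by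
  unfold csum
  rw [extD_sum _ fun c _ => (fm_mem h).1.pull (hA.smooth c)]
  exact Finset.sum_congr rfl fun c _ => extD_pull (fm_mem h).1 (hA.smooth c)

theorem extD_fm_eq_zero {x : X} (hx : x ∉ tsupport φ) : extD (fm φ w) x = 0 := by
  have : ∀ᶠ y in 𝓝 x, fm φ w y = (0 : PForm E X p) y := by
    filter_upwards [(isClosed_tsupport φ).isOpen_compl.mem_nhds hx] with y hy
    exact fm_eq_zero hy
  rw [extD_congr this, extD_zero]
  rfl

/-- bounds for a closed form. -/
theorem closed_bounds (hA : DiscAction E C X) (h : CutData C w φ) (hd : ∀ x, extD w x = 0) :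
    ∃ N : ℝ, 0 ≤ N ∧ ∀ F : Finset C,
      l2 (csum φ w F) (csum φ w F) ≤ N * F.card ∧
      l2 (extD (csum φ w F)) (extD (csum φ w F)) ≤
        N * (bdry (hA.proper _ h.φ_supp).toFinset F).card := by
  classical
  obtain ⟨N₁, hN₁, H₁⟩ := l2_sum_gpull_le hA (fm_mem h) _ h.φ_supp (fun x hx => by
    by_contra hcon; exact hx (fm_eq_zero hcon))
  obtain ⟨N₂, hN₂, H₂⟩ := l2_le_bdry hA (extD_mem (fm_mem h)) h.φ_supp
    (fun x hx => extD_fm_eq_zero hx)
  refine ⟨max N₁ N₂, le_max_of_le_left hN₁, fun F => ⟨?_, ?_⟩⟩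
  · refine (H₁ F).trans ?_
    gcongr
    exact le_max_left _ _
  · rw [extD_csum hA h]
    refine (H₂ F ?_).trans ?_
    · intro x hx
      rw [← extD_csum hA h]
      have : ∀ᶠ y in 𝓝 x, csum φ w F y = w y := by
        filter_upwards [eventually_mem_of_smul_mem hA h.φ_supp x] with y hy
        exact csum_eq h F y fun c hcy => hx c (hy c hcy)
      rw [extD_congr this, hd]
    · gcongr
      exact le_max_right _ _

end Pool.Agent.ZSpI
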