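import Pool.Agent.Work.MP_058ed1_gt.I.Codiff

/-!
# The pairing of the cut-offs, and the theorem
-/

open scoped Manifold ContDiff Topology Bundle ENNReal NNReal
open Set MeasureTheory Bundle

set_option linter.unusedSectionVars false

noncomputable section

namespace Pool.Agent.ZSpI

open Pool.Agent.ZSp

variable {E : Type*} [NormedAddCommGroup E] [InnerProductSpace ℝ E] [FiniteDimensional ℝ E]
  {C X : Type*} [Group C] [EMetricSpace X] [ChartedSpace E X]
  [IsManifold 𝓘(ℝ, E) ∞ X] [RiemannianBundle (fun x : X => TangentSpace 𝓘(ℝ, E) x)]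
  [IsContMDiffRiemannianBundle 𝓘(ℝ, E) ∞ E (fun x : X => TangentSpace 𝓘(ℝ, E) x)]
  [IsRiemannianManifold 𝓘(ℝ, E) X] [MeasurableSpace X] [BorelSpace X]
  [MulAction C X] {p : ℕ}

theorem abs_l2_le {a b : PForm E X p} (ha : a ∈ OmegaC E X p) (hb : b ∈ OmegaC E X p) :
    (l2 a b) ^ 2 ≤ l2 a a * l2 b b := by
  let a' : OmC E X p := ⟨a, ha⟩
  let b' : OmC E X p := ⟨b, hb⟩
  have h1 : |inner ℝ a' b'| ≤ ‖a'‖ * ‖b'‖ := abs_real_inner_le_norm a' b'
  have h2 : (inner ℝ a' b') ^ 2 ≤ (‖a'‖ * ‖b'‖) ^ 2 := by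
    rw [← sq_abs (inner ℝ a' b')]
    exact pow_le_pow_left₀ (abs_nonneg _) h1 2
  rw [mul_pow, norm_sq_eq, norm_sq_eq] at h2
  exact h2

theorem ainner_add_right {V : Type*} [NormedAddCommGroup V] [InnerProductSpace ℝ V]
    [FiniteDimensional ℝ V] (a b c : V [⋀^Fin p]→L[ℝ] ℝ) :
    ainner a (b + c) = ainner a b + ainner a c := by
  rw [ainner_comm, ainner_add_left, ainner_comm b, ainner_comm c]

theorem ainner_sum_left {V : Type*} [NormedAddCommGroup V] [InnerProductSpace ℝ V]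
    [FiniteDimensional ℝ V] {ι : Type*} (s : Finset ι) (a : ι → V [⋀^Fin p]→L[ℝ] ℝ)
    (b : V [⋀^Fin p]→L[ℝ] ℝ) : ainner (∑ i ∈ s, a i) b = ∑ i ∈ s, ainner (a i) b := by
  classical
  induction s using Finset.induction_on with
  | empty =>
    rw [Finset.sum_empty, Finset.sum_empty]
    have := ainner_smul_left (V := V) (p := p) 0 0 b
    simpa using this
  | insert i s hi ih => rw [Finset.sum_insert hi, Finset.sum_insert hi, ainner_add_left, ih]

theorem abs_ainner_le {V : Type*} [NormedAddCommGroup V] [InnerProductSpace ℝ V]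
    [FiniteDimensional ℝ V] (a b : V [⋀^Fin p]→L[ℝ] ℝ) :
    |ainner a b| ≤ ainner a a + ainner b b := by
  have e1 : ainner (a + b) (a + b) = ainner a a + 2 * ainner a b + ainner b b := by
    rw [ainner_add_left, ainner_add_right, ainner_add_right, ainner_comm b a]; ring
  have e2 : ainner (a + (-1 : ℝ) • b) (a + (-1 : ℝ) • b) =
      ainner a a - 2 * ainner a b + ainner b b := by
    rw [ainner_add_left, ainner_add_right, ainner_add_right, ainner_smul_left,
      ainner_comm a ((-1 : ℝ) • b), ainner_smul_left, ainner_comm b a,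
      ainner_smul_left, ainner_comm b ((-1 : ℝ) • b), ainner_smul_left]
    ring
  have h1 := ainner_self_nonneg (a + b)
  have h2 := ainner_self_nonneg (a + (-1 : ℝ) • b)
  have h3 := ainner_self_nonneg a
  have h4 := ainner_self_nonneg b
  rw [e1] at h1
  rw [e2] at h2
  rw [abs_le]
  constructor <;> linarith

variable {τ ρ : PForm E X (p + 1)} {φ : X → ℝ}

theorem integrable_pin' {a b : PForm E X p} (ha : a ∈ OmegaC E X p) (hb : SmoothForm b) :
    Integrable (pin a b) (vol E X) :=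
  (continuous_pin ha.1 hb).integrable_of_hasCompactSupport (hasCompactSupport_pin ha b)

theorem l2_csum_left (hA : DiscAction E C X) {τ ρ : PForm E X p} (h₁ : CutData C τ φ)
    (h₂ : CutData C ρ φ) (F : Finset C) :
    l2 (csum φ τ F) ρ = F.card * l2 (fm φ τ) ρ := by
  have e1 : ∀ x, pin (csum φ τ F) ρ x = ∑ c ∈ F, pin (gpull c (fm φ τ)) (gpull c ρ) x := by
    intro x
    show ainner _ _ = _
    unfold csum
    rw [sum_apply_pform, ainner_sum_left]
    refine Finset.sum_congr rfl fun c hc => ?_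
    show _ = ainner _ _
    rw [h₂.inv c]
  unfold l2
  have e2 : pin (csum φ τ F) ρ = fun x => ∑ c ∈ F, pin (gpull c (fm φ τ)) (gpull c ρ) x :=
    funext e1
  rw [e2, integral_finsetSum]
  · have e3 : ∀ c ∈ F, ∫ x, pin (gpull c (fm φ τ)) (gpull c ρ) x ∂(vol E X) =
        ∫ x, pin (fm φ τ) ρ x ∂(vol E X) := fun c _ => l2_gpull hA c _ _
    rw [Finset.sum_congr rfl e3, Finset.sum_const, nsmul_eq_mul]
  · intro c _
    exact integrable_pin' (gpull_mem hA c (fm_mem h₁)) (h₂.smooth.pull (hA.smooth c))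

/-- the pairing of the cut-offs. -/
theorem pairing_bounds (hA : DiscAction E C X) {τ ρ : PForm E X p} (h₁ : CutData C τ φ)
    (h₂ : CutData C ρ φ) :
    ∃ N : ℝ, 0 ≤ N ∧ ∀ F : Finset C,
      |F.card * l2 (fm φ τ) ρ - l2 (csum φ τ F) (csum φ ρ F)| ≤
        N * (bdry (hA.proper _ h₁.φ_supp).toFinset F).card := by
  classical
  obtain ⟨N₁, hN₁, H₁⟩ := l2_sum_gpull_le hA (fm_mem h₁) _ h₁.φ_supp (fun x hx => by
    by_contra hcon; exact hx (fm_eq_zero hcon))
  obtain ⟨N₂, hN₂, H₂⟩ := l2_sum_gpull_le hA (fm_mem h₂) _ h₁.φ_supp (fun x hx => by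
    by_contra hcon; exact hx (fm_eq_zero hcon))
  set J : ℝ := ∫ x, |pin (fm φ τ) ρ x| ∂(vol E X) with hJ
  have hJ0 : 0 ≤ J := integral_nonneg fun x => abs_nonneg _
  refine ⟨J + (N₁ + N₂), by positivity, fun F => ?_⟩
  set S := bdry (hA.proper _ h₁.φ_supp).toFinset F with hS
  rw [← l2_csum_left hA h₁ h₂ F]
  have m1 := csum_mem hA h₁ F
  have m2 := csum_mem hA h₂ F
  have m1' := csum_mem hA h₁ S
  have m2' := csum_mem hA h₂ S
  have i1 : Integrable (pin (csum φ τ F) ρ) (vol E X) := integrable_pin' m1 h₂.smooth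
  have i2 : Integrable (pin (csum φ τ F) (csum φ ρ F)) (vol E X) := integrable_pin m1 m2
  have i3 : ∀ c ∈ S, Integrable (fun x => |pin (gpull c (fm φ τ)) (gpull c ρ) x|) (vol E X) :=
    fun c _ => (integrable_pin' (gpull_mem hA c (fm_mem h₁))
      (h₂.smooth.pull (hA.smooth c))).abs
  have i4 : Integrable (fun x => ∑ c ∈ S, |pin (gpull c (fm φ τ)) (gpull c ρ) x|) (vol E X) :=
    integrable_finsetSum _ i3
  have i5 : Integrable (pin (csum φ τ S) (csum φ τ S)) (vol E X) := integrable_pin m1' m1'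
  have i6 : Integrable (pin (csum φ ρ S) (csum φ ρ S)) (vol E X) := integrable_pin m2' m2'
  have i7 : Integrable (fun x => pin (csum φ τ S) (csum φ τ S) x +
      pin (csum φ ρ S) (csum φ ρ S) x) (vol E X) := i5.add i6
  have key : ∀ x, |pin (csum φ τ F) ρ x - pin (csum φ τ F) (csum φ ρ F) x| ≤
      (∑ c ∈ S, |pin (gpull c (fm φ τ)) (gpull c ρ) x|) +
        (pin (csum φ τ S) (csum φ τ S) x + pin (csum φ ρ S) (csum φ ρ S) x) := by
    intro x
    by_cases hx : ∀ c : C, c • x ∈ tsupport φ → c ∈ F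
    · have e1 : pin (csum φ τ F) ρ x = pin (csum φ τ F) (csum φ ρ F) x := by
        show ainner _ _ = ainner _ _
        rw [csum_eq h₂ F x hx]
      rw [e1, sub_self, abs_zero]
      have a1 : 0 ≤ ∑ c ∈ S, |pin (gpull c (fm φ τ)) (gpull c ρ) x| :=
        Finset.sum_nonneg fun c _ => abs_nonneg _
      have a2 := pin_self_nonneg (csum φ τ S) x
      have a3 := pin_self_nonneg (csum φ ρ S) x
      linarith
    · have e1 : csum φ τ F x = csum φ τ S x := sum_bdry hA h₁.φ_supp (fun y hy => fm_eq_zero hy) hx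
      have e2 : csum φ ρ F x = csum φ ρ S x := sum_bdry hA h₁.φ_supp (fun y hy => fm_eq_zero hy) hx
      have e3 : pin (csum φ τ F) ρ x = ∑ c ∈ S, pin (gpull c (fm φ τ)) (gpull c ρ) x := by
        show ainner _ _ = _
        rw [e1]
        unfold csum
        rw [sum_apply_pform, ainner_sum_left]
        refine Finset.sum_congr rfl fun c hc => ?_
        show _ = ainner _ _
        rw [h₂.inv c]
      have e4 : pin (csum φ τ F) (csum φ ρ F) x = ainner (csum φ τ S x) (csum φ ρ S x) := by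
        show ainner _ _ = _
        rw [e1, e2]
      rw [e3, e4]
      refine (abs_sub _ _).trans ?_
      have b1 := Finset.abs_sum_le_sum_abs (fun c => pin (gpull c (fm φ τ)) (gpull c ρ) x) S
      have b2 : |ainner (csum φ τ S x) (csum φ ρ S x)| ≤
        pin (csum φ τ S) (csum φ τ S) x + pin (csum φ ρ S) (csum φ ρ S) x := abs_ainner_le _ _
      linarith
  have f1 : l2 (csum φ τ F) ρ - l2 (csum φ τ F) (csum φ ρ F) =
      ∫ x, (pin (csum φ τ F) ρ x - pin (csum φ τ F) (csum φ ρ F) x) ∂(vol E X) := by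
    unfold l2
    rw [integral_sub i1 i2]
  rw [f1]
  calc |∫ x, (pin (csum φ τ F) ρ x - pin (csum φ τ F) (csum φ ρ F) x) ∂(vol E X)|
      ≤ ∫ x, |pin (csum φ τ F) ρ x - pin (csum φ τ F) (csum φ ρ F) x| ∂(vol E X) :=
        abs_integral_le_integral_abs
    _ ≤ ∫ x, ((∑ c ∈ S, |pin (gpull c (fm φ τ)) (gpull c ρ) x|) +
        (pin (csum φ τ S) (csum φ τ S) x + pin (csum φ ρ S) (csum φ ρ S) x)) ∂(vol E X) :=
        integral_mono (i1.sub i2).abs (i4.add i7) key
    _ = (∑ c ∈ S, ∫ x, |pin (gpull c (fm φ τ)) (gpull c ρ) x| ∂(vol E X)) +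
        (l2 (csum φ τ S) (csum φ τ S) + l2 (csum φ ρ S) (csum φ ρ S)) := by
        rw [integral_add i4 i7, integral_finsetSum _ i3]
        congr 1
        exact integral_add i5 i6
    _ = S.card * J + (l2 (csum φ τ S) (csum φ τ S) + l2 (csum φ ρ S) (csum φ ρ S)) := by
        congr 1
        have g1 : ∀ c ∈ S, ∫ x, |pin (gpull c (fm φ τ)) (gpull c ρ) x| ∂(vol E X) = J := by
          intro c _
          rw [hJ, ← integral_smul' hA c (fun x => |pin (fm φ τ) ρ x|)]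
          apply integral_congr_ae (Filter.Eventually.of_forall fun x => ?_)
          show |pin (gpull c (fm φ τ)) (gpull c ρ) x| = |pin (fm φ τ) ρ (c • x)|
          rw [pin_gpull hA]
        rw [Finset.sum_congr rfl g1, Finset.sum_const, nsmul_eq_mul]
    _ ≤ S.card * J + (N₁ * S.card + N₂ * S.card) := by
        gcongr
        · exact H₁ S
        · exact H₂ S
    _ = (J + (N₁ + N₂)) * S.card := by ring

/-- the final inequality between real numbers. -/
theorem final_real {C₀ N t k I AR a₁ a₂ bb rr hh kk : ℝ} (hC₀ : 0 ≤ C₀) (hN : 1 ≤ N)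
    (ht0 : 0 < t) (ht1 : t ≤ 1) (hk : 1 ≤ k)
    (htI : t * (4 * ((C₀ * N + 1) * N + N)) ≤ |I|) (_hI : 0 < |I|)
    (h3 : |k * I - AR| ≤ N * (t ^ 4 * k)) (hs : AR = a₁ + a₂) (h1 : a₁ ^ 2 ≤ bb * rr)
    (h2 : a₂ ^ 2 ≤ hh * kk) (hbb : bb ≤ (C₀ * N + 1) * (t ^ 2 * k)) (hrr : rr ≤ N * k)
    (hhh : hh ≤ (C₀ * N + 1) * k) (hkk : kk ≤ N * (t ^ 4 * k)) (hrr0 : 0 ≤ rr)
    (hkk0 : 0 ≤ kk) : False := by
  have hk0 : 0 < k := by linarith
  set M : ℝ := (C₀ * N + 1) * N with hM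
  have hM1 : 1 ≤ M := by
    have : 0 ≤ C₀ * N := by positivity
    rw [hM]; nlinarith
  have hMM : M ≤ M ^ 2 := by nlinarith
  have ht2 : t ^ 2 ≤ 1 := pow_le_one₀ ht0.le ht1
  have q1 : a₁ ^ 2 ≤ (M * t * k) ^ 2 := by
    calc a₁ ^ 2 ≤ bb * rr := h1
      _ ≤ ((C₀ * N + 1) * (t ^ 2 * k)) * (N * k) := mul_le_mul hbb hrr hrr0 (by positivity)
      _ = M * (t * k) ^ 2 := by rw [hM]; ring
      _ ≤ M ^ 2 * (t * k) ^ 2 := by gcongr
      _ = (M * t * k) ^ 2 := by ring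
  have q2 : a₂ ^ 2 ≤ (M * t * k) ^ 2 := by
    calc a₂ ^ 2 ≤ hh * kk := h2
      _ ≤ ((C₀ * N + 1) * k) * (N * (t ^ 4 * k)) := mul_le_mul hhh hkk hkk0 (by positivity)
      _ = M * (t ^ 2 * k ^ 2) * t ^ 2 := by rw [hM]; ring
      _ ≤ M ^ 2 * (t ^ 2 * k ^ 2) * 1 := by gcongr
      _ = (M * t * k) ^ 2 := by ring
  have q1' := abs_le_of_sq_le_sq q1 (by positivity)
  have q2' := abs_le_of_sq_le_sq q2 (by positivity)
  have q3 : |k * I| ≤ N * (t ^ 4 * k) + 2 * (M * t * k) := by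
    have e1 : k * I = (k * I - AR) + (a₁ + a₂) := by rw [hs]; ring
    rw [e1]
    calc _ ≤ |k * I - AR| + |a₁ + a₂| := abs_add_le _ _
      _ ≤ |k * I - AR| + (|a₁| + |a₂|) := by gcongr; exact abs_add_le _ _
      _ ≤ _ := by linarith
  rw [abs_mul, abs_of_pos hk0] at q3
  have q4 : |I| ≤ N * t ^ 4 + 2 * (M * t) := by
    have : k * |I| ≤ k * (N * t ^ 4 + 2 * (M * t)) := by linarith
    exact le_of_mul_le_mul_left this hk0
  have q5 : t ^ 4 ≤ t := by
    have e : t ^ 4 = t * t ^ 3 := by ring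
    rw [e]
    have : t ^ 3 ≤ 1 := pow_le_one₀ ht0.le ht1
    nlinarith
  have q6 : N * t ^ 4 ≤ N * t := by gcongr
  have q7 : |I| ≤ N * t + 2 * (M * t) := by linarith
  have q8 : 0 < M * t := by positivity
  have q9 : 0 < N * t := by positivity
  nlinarith

theorem endgamePair (hA : DiscAction E C X) (hF : Amenable C)
    (h : Pairing E C τ ρ φ) : ¬ HodgeProp E X p := by
  classical
  rintro ⟨C₀, hC₀, H⟩
  have h₁ : CutData C τ φ := ⟨h.smooth₁, h.inv₁, h.smooth, h.supp, fun x hx => h.part x (Or.inl hx)⟩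
  have h₂ : CutData C ρ φ := ⟨h.smooth₂, h.inv₂, h.smooth, h.supp, fun x hx => h.part x (Or.inr hx)⟩
  obtain ⟨N₁, hN₁, H₁⟩ := closed_bounds hA h₁ h.closed
  obtain ⟨N₂, hN₂, H₂⟩ := coclosed_bounds hA h₂ (fun a ha => by
    rw [h.coclosed a ha, l2_zero_right])
  obtain ⟨N₃, hN₃, H₃⟩ := pairing_bounds hA h₁ h₂
  set I : ℝ := l2 (fm φ τ) ρ with hI
  have hI0 : I ≠ 0 := by
    have : I = ∫ x, φ x * pin τ ρ x ∂(vol E X) := by
      rw [hI]; unfold l2
      apply integral_congr_ae (Filter.Eventually.of_forall fun x => ?_)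
      exact ainner_smul_left _ _ _
    rw [this]; exact h.ne
  set N : ℝ := N₁ + N₂ + N₃ + 1 with hN
  have hN0 : 1 ≤ N := by rw [hN]; linarith
  have hNa : N₁ ≤ N := by rw [hN]; linarith
  have hNb : N₂ ≤ N := by rw [hN]; linarith
  have hNc : N₃ ≤ N := by rw [hN]; linarith
  clear_value N
  have hIpos : 0 < |I| := abs_pos.2 hI0
  have hMN : 0 < 4 * ((C₀ * N + 1) * N + N) := by positivity
  obtain ⟨t, ht0, ht1, htI⟩ : ∃ t : ℝ, 0 < t ∧ t ≤ 1 ∧
      t * (4 * ((C₀ * N + 1) * N + N)) ≤ |I| := by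
    refine ⟨min 1 (|I| / (4 * ((C₀ * N + 1) * N + N))), by positivity, min_le_left _ _, ?_⟩
    rw [← le_div_iff₀ hMN]
    exact min_le_right _ _
  obtain ⟨F, hFne, hFb⟩ :=
    exists_bdry_le hF (hA.proper _ h.supp).toFinset (t ^ 4) (by positivity)
  have hk1 : 1 ≤ (F.card : ℝ) := by exact_mod_cast hFne.card_pos
  obtain ⟨hα1, hα2⟩ := H₁ F
  obtain ⟨hρ1, κ, hκ, hκc, hκ2⟩ := H₂ F
  have h3 := H₃ F
  have mA : csum φ τ F ∈ OmegaC E X (p + 1) := csum_mem hA h₁ F
  have mR : csum φ ρ F ∈ OmegaC E X (p + 1) := csum_mem hA h₂ F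
  obtain ⟨η, hη, hη1, hη2⟩ := H _ mA (t ^ 2) (by positivity)
  have hb0 : (0 : ℝ) ≤ ((bdry (hA.proper _ h.supp).toFinset F).card : ℝ) := by positivity
  generalize ((bdry (hA.proper _ h.supp).toFinset F).card : ℝ) = b at *
  generalize (F.card : ℝ) = k at *
  generalize hAd : csum φ τ F = A at *
  generalize hRd : csum φ ρ F = R at *
  have hAA : l2 A A ≤ N * k := hα1.trans (by gcongr)
  have hRR : l2 R R ≤ N * k := hρ1.trans (by gcongr)
  have hdA : l2 (extD A) (extD A) ≤ N * (t ^ 4 * k) :=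
    hα2.trans (mul_le_mul hNa hFb hb0 (by linarith))
  have hκκ : l2 κ κ ≤ N * (t ^ 4 * k) := hκ2.trans (mul_le_mul hNb hFb hb0 (by linarith))
  have h3' : |k * I - l2 A R| ≤ N * (t ^ 4 * k) :=
    h3.trans (mul_le_mul hNc hFb hb0 (by linarith))
  have hηη : l2 η η ≤ (C₀ * N + 1) * k := by
    have e1 : C₀ * l2 A A ≤ C₀ * (N * k) := by gcongr
    have e2 : t ^ 2 ≤ k := by
      have : t ^ 2 ≤ 1 := pow_le_one₀ ht0.le ht1
      linarith
    calc l2 η η ≤ C₀ * l2 A A + t ^ 2 := hη1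
      _ ≤ C₀ * (N * k) + k := add_le_add e1 e2
      _ = _ := by ring
  have mβ : A - extD η ∈ OmegaC E X (p + 1) := Submodule.sub_mem _ mA (extD_mem hη)
  have hββ : l2 (A - extD η) (A - extD η) ≤ (C₀ * N + 1) * (t ^ 2 * k) := by
    have e1 : l2 (extD A) (extD A) * l2 A A ≤ (N * (t ^ 2 * k)) ^ 2 := by
      calc _ ≤ (N * (t ^ 4 * k)) * (N * k) :=
            mul_le_mul hdA hAA (l2_self_nonneg _) (by positivity)
        _ = (N * (t ^ 2 * k)) ^ 2 := by ring
    have e3 : Real.sqrt (l2 (extD A) (extD A) * l2 A A) ≤ N * (t ^ 2 * k) := by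
      rw [← Real.sqrt_sq (show 0 ≤ N * (t ^ 2 * k) by positivity)]
      exact Real.sqrt_le_sqrt e1
    have e4 : C₀ * Real.sqrt (l2 (extD A) (extD A) * l2 A A) ≤ C₀ * (N * (t ^ 2 * k)) := by
      gcongr
    have e5 : t ^ 2 ≤ t ^ 2 * k := le_mul_of_one_le_right (by positivity) hk1
    calc _ ≤ C₀ * Real.sqrt (l2 (extD A) (extD A) * l2 A A) + t ^ 2 := hη2
      _ ≤ C₀ * (N * (t ^ 2 * k)) + t ^ 2 * k := add_le_add e4 e5
      _ = _ := by ring
  have hsplit : l2 A R = l2 (A - extD η) R + l2 η κ := by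
    have e2 := hκc η hη
    have e3 := l2_add_left mβ (extD_mem hη) mR
    rw [sub_add_cancel] at e3
    rw [e3, e2]
  exact final_real hC₀ hN0 ht0 ht1 hk1 htI hIpos h3' hsplit (abs_l2_le mβ mR) (abs_l2_le hη hκ)
    hββ hRR hηη hκκ (l2_self_nonneg _) (l2_self_nonneg _)

end Pool.Agent.ZSpI
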